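import Pool.Agent.Helper69.AS.St

set_option autoImplicit false

/-! Project AS (helper69), MP_d112a4_gt: module EN (helper41): one real variable, Fatou. -/

open Filter Topology Matrix Set MeasureTheory
open scoped ENNReal ComplexOrder

namespace Pool.Agent.Helper41.AS

open Pool.Agent.Helper35.PM Pool.Agent.Helper69.AS

/-- The integral of the second difference. -/
theorem second_diff (G : ℝ → ℝ) (hc : Continuous G) (L δ K : ℝ) (hL : 0 ≤ L) (hδ : 0 < δ) (hδ1 : δ ≤ 1 / 8)
    (hk : ∀ t, -(1 / 8) ≤ t → t ≤ L → |G (t + δ) - G t| ≤ K) :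
    ∫ t in (0 : ℝ)..L, (G (t + δ) + G (t - δ) - 2 * G t) ≤ 2 * K * δ := by
  set g : ℝ → ℝ := fun t => G (t + δ) - G t with hg
  have hgc : Continuous g := by
    rw [hg]
    fun_prop
  have hi : ∀ a b : ℝ, IntervalIntegrable g volume a b := fun a b => hgc.intervalIntegrable a b
  have e1 : ∫ t in (0 : ℝ)..L, (G (t + δ) + G (t - δ) - 2 * G t) =
      (∫ t in (0 : ℝ)..L, g t) - ∫ t in (0 : ℝ)..L, g (t - δ) := by
    rw [← intervalIntegral.integral_sub]
    · refine intervalIntegral.integral_congr fun t _ => ?_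
      simp only [hg, sub_add_cancel]
      ring
    · exact hi _ _
    · exact (hgc.comp (continuous_id.sub continuous_const)).intervalIntegrable _ _
  rw [e1, intervalIntegral.integral_comp_sub_right]
  have e2 : (∫ t in (0 - δ)..(L - δ), g t) = (∫ t in (0 - δ)..0, g t) + ∫ t in (0 : ℝ)..(L - δ), g t :=
    (intervalIntegral.integral_add_adjacent_intervals (hi _ _) (hi _ _)).symm
  have e3 : (∫ t in (0 : ℝ)..L, g t) = (∫ t in (0 : ℝ)..(L - δ), g t) + ∫ t in (L - δ)..L, g t :=
    (intervalIntegral.integral_add_adjacent_intervals (hi _ _) (hi _ _)).symm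
  rw [e2, e3]
  have b1 : ‖∫ t in (0 - δ)..0, g t‖ ≤ K * |0 - (0 - δ)| := by
    refine intervalIntegral.norm_integral_le_of_norm_le_const fun t ht => ?_
    rw [uIoc_of_le (by linarith)] at ht
    rw [Real.norm_eq_abs]
    exact hk t (by linarith [ht.1]) (by linarith [ht.2])
  have b2 : ‖∫ t in (L - δ)..L, g t‖ ≤ K * |L - (L - δ)| := by
    refine intervalIntegral.norm_integral_le_of_norm_le_const fun t ht => ?_
    rw [uIoc_of_le (by linarith)] at ht
    rw [Real.norm_eq_abs]
    exact hk t (by linarith [ht.1]) ht.2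
  rw [Real.norm_eq_abs, abs_le] at b1 b2
  have a1 : |0 - (0 - δ)| = δ := by
    rw [sub_sub_cancel, abs_of_pos hδ]
  have a2 : |L - (L - δ)| = δ := by
    rw [sub_sub_cancel, abs_of_pos hδ]
  rw [a1] at b1
  rw [a2] at b2
  linarith [b1.1, b2.2]

theorem hEN : StEN := by
  intro j g L E hL hE hg hj hineq hlip
  have hab : (-(1 / 4) : ℝ) ≤ L + 1 / 4 := by linarith
  set G : ℝ → ℝ := IccExtend hab ((Icc (-(1 / 4) : ℝ) (L + 1 / 4)).domRestrict g) with hG
  have hGc : Continuous G := (continuousOn_iff_continuous_domRestrict.mp hg).Icc_extend'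
  have hGe : ∀ t, -(1 / 4) ≤ t → t ≤ L + 1 / 4 → G t = g t := by
    intro t h1 h2
    rw [hG, IccExtend_of_mem hab _ (⟨h1, h2⟩ : t ∈ Icc (-(1 / 4) : ℝ) (L + 1 / 4))]
    rfl
  set B : ℝ → ℝ → ℝ := fun δ t => 2 * (G (t + δ) + G (t - δ) - 2 * G t + 100 * δ ^ 2 * E) with hB
  have key : ∀ δ, 0 < δ → δ ≤ 1 / 8 → ∀ t ∈ Icc 0 L,
      0 ≤ B δ t ∧ j t (t + δ) + j t (t - δ) - 2 ≤ B δ t := by
    intro δ hδ hδ1 t ht
    have h := hineq t δ ht.1 ht.2 hδ hδ1
    have e1 := hGe (t + δ) (by linarith [ht.1]) (by linarith [ht.2])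
    have e2 := hGe (t - δ) (by linarith [ht.1]) (by linarith [ht.2])
    have e3 := hGe t (by linarith [ht.1]) (by linarith [ht.2])
    have a1 := hj t (t + δ)
    have a2 := hj t (t - δ)
    simp only [hB, e1, e2, e3]
    constructor
    · linarith
    · exact h
  have hBc : ∀ δ, Continuous (B δ) := by
    intro δ
    simp only [hB]
    fun_prop
  set d : ℕ → ℝ := fun n => 1 / ((n : ℝ) + 8) with hd
  have hd0 : ∀ n, 0 < d n := fun n => by
    simp only [hd]
    positivity
  have hd8 : ∀ n, d n ≤ 1 / 8 := fun n => by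
    simp only [hd]
    apply one_div_le_one_div_of_le (by norm_num)
    have : (0 : ℝ) ≤ n := Nat.cast_nonneg n
    linarith
  have hdt : Tendsto d atTop (𝓝 0) := by
    have h1 : Tendsto (fun n : ℕ => (n : ℝ) + 8) atTop atTop :=
      tendsto_atTop_add_const_right _ _ tendsto_natCast_atTop_atTop
    simp only [hd, one_div]
    exact tendsto_inv_atTop_zero.comp h1
  have hdt' : Tendsto d atTop (𝓝[>] 0) :=
    tendsto_nhdsWithin_iff.mpr ⟨hdt, Eventually.of_forall fun n => hd0 n⟩
  set f : ℕ → ℝ → ℝ≥0∞ := fun n t => ENNReal.ofReal (B (d n) t / d n ^ 2) with hf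
  have hfm : ∀ n, Measurable (f n) := fun n => ((hBc (d n)).div_const _).measurable.ennreal_ofReal
  refine ⟨fun t => liminf (fun n => f n t) atTop, Measurable.liminf hfm, fun t ht => ?_, ?_⟩
  · have htI : t ∈ Icc 0 L := ⟨ht.1.le, ht.2.le⟩
    have h1 : liminf (fun δ : ℝ => ENNReal.ofReal ((j t (t + δ) + j t (t - δ) - 2) / δ ^ 2)) (𝓝[>] 0) ≤
        liminf (fun δ : ℝ => ENNReal.ofReal ((j t (t + δ) + j t (t - δ) - 2) / δ ^ 2)) (map d atTop) :=
      liminf_le_liminf_of_le hdt'
    refine h1.trans ?_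
    have h2 : liminf (fun δ : ℝ => ENNReal.ofReal ((j t (t + δ) + j t (t - δ) - 2) / δ ^ 2)) (map d atTop) =
        liminf (fun n => ENNReal.ofReal ((j t (t + d n) + j t (t - d n) - 2) / d n ^ 2)) atTop := rfl
    rw [h2]
    refine liminf_le_liminf (Eventually.of_forall fun n => ?_)
    refine ENNReal.ofReal_le_ofReal ?_
    exact div_le_div_of_nonneg_right (key (d n) (hd0 n) (hd8 n) t htI).2 (by positivity)
  · refine (lintegral_liminf_le hfm).trans ?_
    have hint : ∀ n, ∫⁻ t in Ioo 0 L, f n t ≤ ENNReal.ofReal (400 * (L + 1) * E) := by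
      intro n
      obtain ⟨δ, hδd⟩ : ∃ δ, δ = d n := ⟨_, rfl⟩
      have hδ : 0 < δ := by rw [hδd]; exact hd0 n
      have hδ8 : δ ≤ 1 / 8 := by rw [hδd]; exact hd8 n
      have hc : Continuous fun t => B δ t / δ ^ 2 := (hBc δ).div_const _
      have hii : IntegrableOn (fun t => B δ t / δ ^ 2) (Ioo 0 L) :=
        (hc.continuousOn.integrableOn_Icc).mono_set Ioo_subset_Icc_self
      have h1 : ∫⁻ t in Ioo 0 L, f n t = ENNReal.ofReal (∫ t in Ioo 0 L, B δ t / δ ^ 2) := by
        rw [ofReal_integral_eq_lintegral_ofReal hii]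
        · simp only [hf, hδd]
        · refine (ae_restrict_iff' measurableSet_Ioo).mpr (ae_of_all _ fun t ht => ?_)
          have := (key δ hδ hδ8 t ⟨ht.1.le, ht.2.le⟩).1
          simp only [Pi.zero_apply]
          exact div_nonneg this (by positivity)
      rw [h1]
      refine ENNReal.ofReal_le_ofReal ?_
      rw [← integral_Ioc_eq_integral_Ioo, ← intervalIntegral.integral_of_le hL]
      have h2 : ∫ t in (0 : ℝ)..L, B δ t / δ ^ 2 =
          2 / δ ^ 2 * ∫ t in (0 : ℝ)..L, ((G (t + δ) + G (t - δ) - 2 * G t) + 100 * δ ^ 2 * E) := by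
        rw [← intervalIntegral.integral_const_mul]
        refine intervalIntegral.integral_congr fun t _ => ?_
        simp only [hB]
        ring
      have h3 : ∫ t in (0 : ℝ)..L, ((G (t + δ) + G (t - δ) - 2 * G t) + 100 * δ ^ 2 * E) =
          (∫ t in (0 : ℝ)..L, (G (t + δ) + G (t - δ) - 2 * G t)) + L * (100 * δ ^ 2 * E) := by
        rw [intervalIntegral.integral_add]
        · rw [intervalIntegral.integral_const, smul_eq_mul]
          ring
        · refine Continuous.intervalIntegrable ?_ _ _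
          fun_prop
        · exact continuous_const.intervalIntegrable _ _
      have h4 := second_diff G hGc L δ (100 * δ * E) hL hδ hδ8 (fun t ht1 ht2 => by
        rw [hGe (t + δ) (by linarith) (by linarith), hGe t (by linarith) (by linarith)]
        exact hlip t δ ht1 ht2 hδ hδ8)
      have h5 : ∫ t in (0 : ℝ)..L, ((G (t + δ) + G (t - δ) - 2 * G t) + 100 * δ ^ 2 * E) ≤
          δ ^ 2 * (200 * E + 100 * L * E) := by
        rw [h3]
        nlinarith
      rw [h2]
      calc 2 / δ ^ 2 * ∫ t in (0 : ℝ)..L, ((G (t + δ) + G (t - δ) - 2 * G t) + 100 * δ ^ 2 * E)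
          ≤ 2 / δ ^ 2 * (δ ^ 2 * (200 * E + 100 * L * E)) :=
            mul_le_mul_of_nonneg_left h5 (by positivity)
        _ = 400 * E + 200 * (L * E) := by
            field_simp
            ring
        _ ≤ 400 * (L + 1) * E := by
            nlinarith [mul_nonneg hL hE]
    refine (liminf_le_liminf (Eventually.of_forall hint)).trans (le_of_eq ?_)
    exact liminf_const _

end Pool.Agent.Helper41.AS
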